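import Mathlib

open Polynomial

namespace Pool.Agent.Results.MP_664f87_an.Counter

/-- The number of non-real zeros of a real polynomial, counted with multiplicity. -/
noncomputable def Zc (f : ℝ[X]) : ℕ :=
  Multiset.card ((f.aroots ℂ).filter fun z => z.im ≠ 0)

/-- The action of a real sequence on real polynomials. -/
noncomputable def act (γ : ℕ → ℝ) (f : ℝ[X]) : ℝ[X] :=
  f.sum fun k a => monomial k (γ k * a)

/-- Complex zero decreasing sequences. -/
def IsCZDS (γ : ℕ → ℝ) : Prop := ∀ f : ℝ[X], Zc (act γ f) ≤ Zc f

theorem coeff_act (γ : ℕ → ℝ) (f : ℝ[X]) (k : ℕ) : (act γ f).coeff k = γ k * f.coeff k := by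
  unfold act
  rw [Polynomial.sum_def, finsetSum_coeff]
  simp only [coeff_monomial]
  rw [Finset.sum_ite_eq']
  split_ifs with h
  · rfl
  · rw [notMem_support_iff.1 h, mul_zero]

def qc : List ℤ := [2303915393674659212304814527474146728612544657043618, -58092186103524538354290443257137601951800828697389146, 456552560924658974455425793238011227266050981859738884, -1679012383116303141643858467482776078118589417594220932, 3488342089787561896482325698337648962306049061866053505, -4572314225184830152360525564905385815380333166797750548, 4065650673565439889897313941284662966516440862748243051, -2581323174402258646901521041110619311815048644034191948, 1215446871779264362518058812491953567937686000395238593, -436942746252608277464464801320356780040660110678412932, 122693735337931987183823586413559218150313133705993111, -27407659078507166308953368495364175966308434362642783, 4943393333518193711991042597754028668795620446394823, -728742073426906675309965971409257308748431531980301, 88691566931995286050601327960329842885483505399158, -8985761604133030318286148176255161001436193664998, 763057972063722429760513438380017695043401211513,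 -54614365005797962250906597328188247433402244841, 3309287172374202619940651208858256936727650565, -170345798948493863582722763921777818833184819, 7467537623055276731131506861847986999913796, -279225399451396277530648574226779205557078, 8911483782901477080779512806985551302085, -242682663987707350197274337680028444429, 5631926896490407813316705244291331042, -111109224232542680125150585182815449, 1856502217271890010226407494558873, -26132879673595897044588946623080, 307655657113128139369413267040, -2999530555057290847246962193, 23897759956163423585405170, -152755774134754478639288, 763227761488419225509, -2867185732351291503, 7606424901385601, -12689246603760, 10000000000]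

def lamQ (k : ℕ) : ℚ := (k.factorial : ℚ) / (1 + k + k ^ 2)

theorem hankel_neg : ∑ i ∈ Finset.range 37, ∑ j ∈ Finset.range 37,
    lamQ (i + j) * ((qc.getD i 0 : ℚ) * (qc.getD j 0 : ℚ)) < 0 := by decide +kernel

noncomputable def lam (k : ℕ) : ℝ := (k.factorial : ℝ) / (1 + k + k ^ 2)

noncomputable def qq : ℝ[X] := ∑ i ∈ Finset.range 37, monomial i ((qc.getD i 0 : ℤ) : ℝ)

theorem act_add (γ : ℕ → ℝ) (f g : ℝ[X]) : act γ (f + g) = act γ f + act γ g := by
  ext k; simp [coeff_act, mul_add]

theorem act_mono (γ : ℕ → ℝ) (k : ℕ) (a : ℝ) :
    act γ (monomial k a) = monomial k (γ k * a) := by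
  ext j
  simp only [coeff_act, coeff_monomial]
  split_ifs with h
  · rw [h]
  · simp

theorem act_sum (γ : ℕ → ℝ) (s : Finset ℕ) (f : ℕ → ℝ[X]) :
    act γ (∑ i ∈ s, f i) = ∑ i ∈ s, act γ (f i) := by
  ext k; simp [coeff_act, Finset.mul_sum]

theorem eval_neg : (act lam (qq * qq)).eval 1 < 0 := by
  have h := hankel_neg
  have h2 : (act lam (qq * qq)).eval 1 = ((∑ i ∈ Finset.range 37, ∑ j ∈ Finset.range 37,
      lamQ (i + j) * ((qc.getD i 0 : ℚ) * (qc.getD j 0 : ℚ)) : ℚ) : ℝ) := by
    unfold qq
    rw [Finset.sum_mul_sum, act_sum, eval_finsetSum]
    push_cast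
    apply Finset.sum_congr rfl
    intro i _
    rw [act_sum, eval_finsetSum]
    apply Finset.sum_congr rfl
    intro j _
    rw [monomial_mul_monomial, act_mono]
    simp [lam, lamQ]
  rw [h2]
  exact_mod_cast h

theorem card_aroots (f : ℝ[X]) : Multiset.card (f.aroots ℂ) = f.natDegree := by
  rw [aroots_def, ← (IsAlgClosed.splits _).natDegree_eq_card_roots,
    natDegree_map_eq_of_injective (algebraMap ℝ ℂ).injective]

theorem result : ¬ IsCZDS fun k : ℕ => (1 + k + k ^ 2 : ℝ) / (k.factorial : ℝ) := by
  intro h
  set ε : ℝ := -(act lam (qq * qq)).eval 1 / 2 with hε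
  have hε0 : 0 < ε := by have := eval_neg; linarith
  set p : ℝ[X] := qq * qq + monomial 0 ε with hp
  set f : ℝ[X] := act lam p with hf
  have hlam : ∀ k, 0 < lam k := fun k => by unfold lam; positivity
  have hpos : ∀ x : ℝ, 0 < p.eval x := by
    intro x
    have := mul_self_nonneg (qq.eval x)
    simp only [hp, eval_add, eval_mul, eval_monomial, pow_zero, mul_one]
    linarith
  have hback : act (fun k : ℕ => (1 + k + k ^ 2 : ℝ) / (k.factorial : ℝ)) f = p := by
    ext k
    rw [coeff_act, hf, coeff_act, ← mul_assoc]
    have : (1 + k + k ^ 2 : ℝ) / (k.factorial : ℝ) * lam k = 1 := by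
      unfold lam
      have : (0 : ℝ) < 1 + k + k ^ 2 := by positivity
      field_simp
    rw [this, one_mul]
  have hdeg : f.natDegree = p.natDegree := by
    have : f.support = p.support := by
      ext k
      simp [hf, coeff_act, (hlam k).ne']
    rw [natDegree, natDegree, degree, degree, this]
  have hf1 : f.eval 1 < 0 := by
    rw [hf, hp, act_add, act_mono]
    have : lam 0 = 1 := by simp [lam]
    simp only [eval_add, eval_monomial, this]
    have := eval_neg
    linarith
  have hf0 : 0 < f.eval 0 := by
    rw [← coeff_zero_eq_eval_zero, hf, coeff_act, coeff_zero_eq_eval_zero]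
    exact mul_pos (hlam 0) (hpos 0)
  have hfne : f ≠ 0 := by rintro h0; simp [h0] at hf0
  obtain ⟨x, -, hx⟩ : (0 : ℝ) ∈ (fun x => f.eval x) '' Set.Icc 0 1 :=
    intermediate_value_Icc' zero_le_one f.continuous.continuousOn ⟨hf1.le, hf0.le⟩
  have h1 : Zc p = p.natDegree := by
    unfold Zc
    rw [Multiset.filter_eq_self.2, card_aroots]
    intro z hz hi
    have hz2 := (mem_aroots.1 hz).2
    have : z = algebraMap ℝ ℂ z.re := by apply Complex.ext <;> simp [hi]
    rw [this, aeval_algebraMap_apply, coe_aeval_eq_eval] at hz2
    have := hpos z.re
    simp only [Complex.coe_algebraMap, Complex.ofReal_eq_zero] at hz2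
    linarith
  have h2 : Zc f < f.natDegree := by
    unfold Zc
    rw [← card_aroots]
    apply Multiset.card_lt_card
    refine lt_of_le_of_ne (Multiset.filter_le _ _) fun he => ?_
    have hm : (x : ℂ) ∈ f.aroots ℂ := by
      rw [mem_aroots]
      refine ⟨hfne, ?_⟩
      have : (x : ℂ) = algebraMap ℝ ℂ x := rfl
      rw [this, aeval_algebraMap_apply, coe_aeval_eq_eval]
      simp only at hx
      simp [hx]
    exact Multiset.filter_eq_self.1 he _ hm (by simp)
  have h3 := h f
  rw [hback] at h3
  omega

end Pool.Agent.Results.MP_664f87_an.Counter
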